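import Pool.Agent.helper306_moser.Conv

/-!
# Almost all sums of at most `(log x) ^ δ` consecutive primes are distinct

For every `ε > 0` and all sufficiently small `δ > 0`: the number of integers `n ≤ x` which are sums
of at most `(log x) ^ δ` consecutive primes is at least `1 - ε` times the number of blocks of at
most `(log x) ^ δ` consecutive primes with sum at most `x`, for all large `x`.
-/

open Finset

namespace Pool.Agent.Results.MP_9a1701_nt.AlmostAllDistinct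

/-- The `i`-th prime: `p 1 = 2`, `p 2 = 3`, `p 3 = 5`, and so on. -/
noncomputable def p (i : ℕ) : ℕ := Nat.nth Nat.Prime (i - 1)

/-- The number of pairs `(i, j)` with `1 ≤ i ≤ j`, `j - i + 1 ≤ M` and
`p i + p (i + 1) + ... + p j = n`. -/
noncomputable def f (M n : ℕ) : ℕ :=
  {ij : ℕ × ℕ | 1 ≤ ij.1 ∧ ij.1 ≤ ij.2 ∧ ij.2 < ij.1 + M ∧ ∑ k ∈ Icc ij.1 ij.2, p k = n}.ncard

open scoped Classical in
/-- For every `ε > 0` there is `δ₀ > 0` such that for `0 < δ ≤ δ₀`, all large `x` and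
`M = ⌊(log x) ^ δ⌋`, the number of `n ≤ x` with `f M n ≥ 1` is at least
`(1 - ε) ∑_{n ≤ x} f M n`. -/
theorem result (ε : ℝ) (hε : 0 < ε) : ∃ δ₀ : ℝ, 0 < δ₀ ∧ ∀ δ : ℝ, 0 < δ → δ ≤ δ₀ →
    ∃ x₀ : ℕ, ∀ x : ℕ, x₀ ≤ x →
      (1 - ε) * ∑ n ∈ Icc 1 x, (f ⌊Real.log x ^ δ⌋₊ n : ℝ) ≤
        #{n ∈ Icc 1 x | 1 ≤ f ⌊Real.log x ^ δ⌋₊ n} := by
  obtain ⟨δ₀, hδ₀, h⟩ := Pool.Agent.helper306_moser.distinct_blocks ε hε
  refine ⟨δ₀, hδ₀, fun δ hδ hδ' => ?_⟩
  obtain ⟨x₀, hx₀⟩ := h δ hδ hδ'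
  refine ⟨x₀, fun x hx => ?_⟩
  have h1 := hx₀ x hx
  have hf : ∀ n, f ⌊Real.log x ^ δ⌋₊ n =
      #(Pool.Agent.helper306_moser.Fb (Pool.Agent.helper306_moser.mm δ x) n) := by
    intro n
    rw [← Pool.Agent.helper306_moser.ncard_eq]
    rfl
  have e1 : ∑ n ∈ Icc 1 x, (f ⌊Real.log x ^ δ⌋₊ n : ℝ) =
      #(Pool.Agent.helper306_moser.Bx x (Pool.Agent.helper306_moser.mm δ x)) := by
    rw [← Pool.Agent.helper306_moser.sum_Fb]
    push_cast
    apply sum_congr rfl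
    intro n _
    rw [hf]
  have e2 : #{n ∈ Icc 1 x | 1 ≤ f ⌊Real.log x ^ δ⌋₊ n} =
      #((Pool.Agent.helper306_moser.Bx x (Pool.Agent.helper306_moser.mm δ x)).image
        (fun w => Pool.Agent.helper306_moser.S w.1 w.2)) := by
    rw [← Pool.Agent.helper306_moser.card_Fb]
    congr 1
    ext n
    rw [mem_filter, mem_filter, hf]
  rw [e1, e2]
  linarith

end Pool.Agent.Results.MP_9a1701_nt.AlmostAllDistinct
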