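import Pool.Agent.helper306_cramer2.Main2

/-!
# The answer to Moser's question in Cramér's model of the primes

Let `P` be a random set of positive integers such that the events `m ∈ P` are independent and
`m ∈ P` has probability asymptotic to `1 / log m`, as in Cramér's model of the primes.  Almost
surely, for every `k ≥ 0`, the set of integers which have exactly `k` representations as a sum of
one or more consecutive elements of `P` has a positive density, namely `e ^ (-λ) λ ^ k / k!` with
`λ = log 2`, the mean value found by Moser for the primes.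
-/

open Filter Topology MeasureTheory ProbabilityTheory

namespace Pool.Agent.Results.MP_9a1701_nt.CramerModel

/-- The number of ways to write `n` as a sum of one or more consecutive elements of the set `R` of
positive integers: the number of pairs `(a, b)` of elements of `R` with `1 ≤ a ≤ b` such that the
sum of the elements of `R` in the interval `[a, b]` equals `n`. -/
noncomputable def f (R : Set ℕ) (n : ℕ) : ℕ :=
  {ab : ℕ × ℕ | 1 ≤ ab.1 ∧ ab.1 ≤ ab.2 ∧ ab.1 ∈ R ∧ ab.2 ∈ R ∧
    ∑ m ∈ Finset.Icc ab.1 ab.2, R.indicator id m = n}.ncard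

/-- In Cramér's model the number of representations follows the Poisson law with parameter
`log 2`, almost surely. -/
theorem result {Ω : Type*} [MeasurableSpace Ω] (μ : Measure Ω) [IsProbabilityMeasure μ]
    (P : Ω → Set ℕ) (hP : ∀ m, MeasurableSet {ω | m ∈ P ω})
    (hind : iIndepSet (fun m => {ω | m ∈ P ω}) μ)
    (hprob : Tendsto (fun m : ℕ => (μ {ω | m ∈ P ω}).toReal * Real.log m) atTop (𝓝 1)) :
    ∀ᵐ ω ∂μ, ∀ k : ℕ, Tendsto (fun x : ℕ =>
      (((Finset.Icc 1 x).filter (fun n => f (P ω) n = k)).card : ℝ) / x) atTop
      (𝓝 (Real.exp (-Real.log 2) * Real.log 2 ^ k / k.factorial)) := by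
  have h := Pool.Agent.helper306_cramer2.poisson_law2 μ (fun m => (μ {ω | m ∈ P ω}).toReal)
    ⟨fun m => ENNReal.toReal_nonneg, fun m => by
      have h1 : μ {ω | m ∈ P ω} ≤ 1 := prob_le_one
      exact ENNReal.toReal_le_of_le_ofReal (by norm_num) (by simpa using h1), hprob⟩ P hP hind
    (fun m _ => (ENNReal.ofReal_toReal (measure_ne_top μ _)).symm)
  filter_upwards [h] with ω hω k
  have h1 := hω k
  have e : Real.exp (-Real.log 2) * Real.log 2 ^ k / k.factorial
      = (Real.log 2) ^ k / (2 * (k.factorial : ℝ)) := by
    rw [Real.exp_neg, Real.exp_log (by norm_num : (0 : ℝ) < 2)]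
    have : (k.factorial : ℝ) ≠ 0 := by exact_mod_cast k.factorial_ne_zero
    field_simp
  rw [e]
  exact h1

end Pool.Agent.Results.MP_9a1701_nt.CramerModel
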