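import Pool.Agent.helper306_moser.Conv

/-!
# Sums of consecutive primes in arithmetic progressions

The set of integers `n` with `f n ≥ 1`, where `f n` is the number of representations of `n` as a
sum of one or more consecutive primes, has more than `c x log log x / log x` elements up to `x`,
in every residue class.  (The primes themselves, or any bounded number of terms, only give the
order `x / log x`.)
-/

open Finset

namespace Pool.Agent.Results.MP_9a1701_nt.SumsInProgressions

/-- The `i`-th prime: `p 1 = 2`, `p 2 = 3`, `p 3 = 5`, and so on. -/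
noncomputable def p (i : ℕ) : ℕ := Nat.nth Nat.Prime (i - 1)

/-- The number of pairs `(i, j)` with `1 ≤ i ≤ j` and `p i + p (i + 1) + ... + p j = n`. -/
noncomputable def f (n : ℕ) : ℕ :=
  {ij : ℕ × ℕ | 1 ≤ ij.1 ∧ ij.1 ≤ ij.2 ∧ ∑ k ∈ Icc ij.1 ij.2, p k = n}.ncard

open scoped Classical in
/-- For every residue class `a` modulo `q` there is `c > 0` such that for all large `x` at least
`c x log log x / log x` integers `n ≤ x` in the class are sums of consecutive primes. -/
theorem result (q a : ℕ) (hq : 1 ≤ q) : ∃ c : ℝ, 0 < c ∧ ∃ x₀ : ℕ, ∀ x : ℕ, x₀ ≤ x →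
    c * (x * Real.log (Real.log x) / Real.log x) ≤
      #{n ∈ Icc 1 x | n ≡ a [MOD q] ∧ 1 ≤ f n} := by
  obtain ⟨c, hc, x₀, h⟩ := Pool.Agent.helper306_moser.final_A q a hq
  refine ⟨c, hc, x₀, fun x hx => (h x hx).trans (le_of_eq ?_)⟩
  congr 2
  ext n
  rw [mem_filter, mem_filter, Pool.Agent.helper306_moser.rep_iff,
    ← Pool.Agent.helper306_moser.ncard_eq']
  rfl

end Pool.Agent.Results.MP_9a1701_nt.SumsInProgressions
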