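import Pool.Agent.helper306_thin.Final

/-!
# Moser's question for the primes with a sparse random set of primes removed

Every large prime `q` is removed, independently of the others, with a probability `τ q` which may
be as small as `q ^ (-c)` and varies slowly; the small primes may be treated in any independent
way.  Let `R` be the set of the remaining primes.  Almost surely, for every `k ≥ 0`, the set of the
integers which have exactly `k` representations as a sum of one or more consecutive elements of `R`
has positive lower density, and the lower densities are bounded from below as in a Poisson law.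
-/

open Filter Topology MeasureTheory ProbabilityTheory

namespace Pool.Agent.Results.MP_9a1701_nt.ThinnedPrimes

/-- The number of ways to write `n` as a sum of one or more consecutive elements of the set `R` of
positive integers: the number of pairs `(a, b)` of elements of `R` with `1 ≤ a ≤ b` such that the
sum of the elements of `R` in the interval `[a, b]` equals `n`. -/
noncomputable def f (R : Set ℕ) (n : ℕ) : ℕ :=
  {ab : ℕ × ℕ | 1 ≤ ab.1 ∧ ab.1 ≤ ab.2 ∧ ab.1 ∈ R ∧ ab.2 ∈ R ∧
    ∑ m ∈ Finset.Icc ab.1 ab.2, R.indicator id m = n}.ncard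

/-- For a random set `R` of primes from which every large prime `q` is missing with probability
`τ q ≥ q ^ (-c)`, almost surely for every `k` a positive proportion of the integers has exactly `k`
representations as a sum of consecutive elements of `R`. -/
theorem result (K : ℝ) (hK : 1 ≤ K) : ∃ α β c : ℝ, 0 < α ∧ 0 < β ∧ 0 < c ∧
    ∀ (Ω : Type*) (_ : MeasurableSpace Ω) (μ : Measure Ω) (_ : IsProbabilityMeasure μ)
      (τ : ℕ → ℝ) (q₀ : ℕ),
      (∀ q : ℕ, q.Prime → q₀ ≤ q → (q : ℝ) ^ (-c) ≤ τ q ∧ τ q ≤ 1 / 2) →
      (∀ q r : ℕ, q.Prime → r.Prime → q₀ ≤ q → q ≤ r → r ≤ 2 * q →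
        τ q ≤ K * τ r ∧ τ r ≤ K * τ q) →
      ∀ R : Ω → Set ℕ, (∀ ω, ∀ m ∈ R ω, m.Prime) → (∀ m, MeasurableSet {ω | m ∈ R ω}) →
      iIndepSet (fun m => {ω | m ∈ R ω}) μ →
      (∀ q : ℕ, q.Prime → q₀ ≤ q → μ {ω | q ∈ R ω} = ENNReal.ofReal (1 - τ q)) →
      ∀ᵐ ω ∂μ, ∀ k : ℕ, ∀ᶠ x : ℕ in atTop,
        α * β ^ k / k.factorial * x
          ≤ (((Finset.Icc 1 x).filter (fun n => f (R ω) n = k)).card : ℝ) :=
  Pool.Agent.helper306_thin.thinned_final K hK

end Pool.Agent.Results.MP_9a1701_nt.ThinnedPrimes
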